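import Pool.Agent.R822.SuitTop

/-!
The bounding number `b`: a well-order `I` of length `b` together with a monotone cofinal map
from `ω^ω` to `I`.
-/

namespace Pool.Agent.R822.Suit

open Cardinal Set Topology

/-- Eventual domination. -/
def LeStar (f g : ℕ → ℕ) : Prop := ∃ N, ∀ n, N ≤ n → f n ≤ g n

theorem LeStar.refl (f : ℕ → ℕ) : LeStar f f := ⟨0, fun _ _ => le_rfl⟩

theorem LeStar.trans {f g h : ℕ → ℕ} (h1 : LeStar f g) (h2 : LeStar g h) : LeStar f h := by
  obtain ⟨N, hN⟩ := h1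
  obtain ⟨M, hM⟩ := h2
  exact ⟨max N M, fun n hn => (hN n ((le_max_left _ _).trans hn)).trans
    (hM n ((le_max_right _ _).trans hn))⟩

theorem LeStar.of_le {f g : ℕ → ℕ} (h : f ≤ g) : LeStar f g := ⟨0, fun n _ => h n⟩

/-- A family is bounded if one function eventually dominates all its members. -/
def BddStar (A : Set (ℕ → ℕ)) : Prop := ∃ g, ∀ f ∈ A, LeStar f g

theorem bddStar_countable (A : Set (ℕ → ℕ)) (hA : A.Countable) : BddStar A := by
  rcases A.eq_empty_or_nonempty with rfl | hne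
  · exact ⟨0, fun f hf => absurd hf (notMem_empty f)⟩
  · obtain ⟨s, rfl⟩ := hA.exists_eq_range hne
    refine ⟨fun n => ∑ k ∈ Finset.range (n+1), s k n, ?_⟩
    rintro _ ⟨k, rfl⟩
    exact ⟨k, fun n hn => Finset.single_le_sum (f := fun k => s k n) (fun _ _ => Nat.zero_le _)
      (Finset.mem_range.mpr (by omega))⟩

theorem not_bddStar_univ : ¬ BddStar Set.univ := by
  rintro ⟨g, hg⟩
  obtain ⟨N, hN⟩ := hg (fun n => g n + 1) trivial
  exact absurd (hN N le_rfl) (by simp)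

/-- The bounding number. -/
noncomputable def bb : Cardinal.{0} := sInf {c | ∃ A : Set (ℕ → ℕ), #A = c ∧ ¬ BddStar A}

theorem bb_spec : ∃ A : Set (ℕ → ℕ), #A = bb ∧ ¬ BddStar A :=
  csInf_mem (s := {c : Cardinal.{0} | ∃ A : Set (ℕ → ℕ), #A = c ∧ ¬ BddStar A})
    ⟨_, Set.univ, rfl, not_bddStar_univ⟩

theorem bdd_of_lt {A : Set (ℕ → ℕ)} (h : #A < bb) : BddStar A := by
  by_contra hcon
  exact absurd (csInf_le' (s := {c : Cardinal.{0} | ∃ A : Set (ℕ → ℕ), #A = c ∧ ¬ BddStar A})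
    ⟨A, rfl, hcon⟩) (not_le.mpr h)

theorem aleph0_lt_bb : ℵ₀ < bb := by
  by_contra hcon
  push Not at hcon
  obtain ⟨A, hA, hA'⟩ := bb_spec
  exact hA' (bddStar_countable A (by rw [← Cardinal.le_aleph0_iff_set_countable]; rw [hA]; exact hcon))

/-- The index set: the initial ordinal of `b`. -/
abbrev J : Type := bb.ord.ToType

theorem seg_J (i : J) : #(Iio i) < bb := by
  have h : #(bb.ord.ToType) = bb := by simp
  have := Cardinal.mk_Iio_lt (α := bb.ord.ToType) i (by simp)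
  rwa [h] at this

/-- An increasing unbounded sequence of length `b`. -/
theorem exists_scale : ∃ F : J → ℕ → ℕ, (∀ i j, i ≤ j → LeStar (F i) (F j)) ∧
    ¬ BddStar (range F) := by
  obtain ⟨A, hA, hA'⟩ := bb_spec
  have h1 : #J = #A := by rw [hA]; simp
  obtain ⟨φ⟩ := Cardinal.eq.mp h1
  -- recursive choice
  have step : ∀ (i : J) (F : (j : J) → j < i → (ℕ → ℕ)), ∃ f : ℕ → ℕ,
      LeStar (φ i) f ∧ ∀ j hj, LeStar (F j hj) f := by
    intro i F
    have h2 : #(range (fun j : Iio i => F j.1 j.2) ∪ {(φ i : ℕ → ℕ)} : Set (ℕ → ℕ)) < bb := by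
      refine lt_of_le_of_lt (mk_union_le _ _) ?_
      refine add_lt_of_lt aleph0_lt_bb.le (lt_of_le_of_lt mk_range_le (seg_J i)) ?_
      simpa using lt_trans one_lt_aleph0 aleph0_lt_bb
    obtain ⟨g, hg⟩ := bdd_of_lt h2
    exact ⟨g, hg _ (Or.inr rfl), fun j hj => hg _ (Or.inl ⟨⟨j, hj⟩, rfl⟩)⟩
  choose G hG1 hG2 using step
  let F : J → ℕ → ℕ := WellFounded.fix (wellFounded_lt (α := J)) (fun i f => G i f)
  have hF : ∀ i, F i = G i (fun j _ => F j) := fun i => WellFounded.fix_eq _ _ _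
  refine ⟨F, ?_, ?_⟩
  · intro i j hij
    rcases hij.lt_or_eq with h | h
    · rw [hF j]
      exact hG2 j (fun j _ => F j) i h
    · rw [h]; exact LeStar.refl _
  · rintro ⟨g, hg⟩
    apply hA'
    refine ⟨g, fun f hf => ?_⟩
    have h3 : LeStar f (F (φ.symm ⟨f, hf⟩)) := by
      rw [hF]
      have := hG1 (φ.symm ⟨f, hf⟩) (fun j _ => F j)
      simpa using this
    exact h3.trans (hg _ ⟨_, rfl⟩)

theorem good_J : Good J bb where
  unc := aleph0_lt_bb
  seg := seg_J
  bdd s hs := by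
    by_contra hcon
    push Not at hcon
    obtain ⟨F, hF1, hF2⟩ := exists_scale
    apply hF2
    obtain ⟨g, hg⟩ := bdd_of_lt (A := F '' s) (lt_of_le_of_lt mk_image_le hs)
    refine ⟨g, ?_⟩
    rintro _ ⟨i, rfl⟩
    obtain ⟨x, hx, hix⟩ := hcon i
    exact (hF1 i x hix).trans (hg _ ⟨x, hx, rfl⟩)

/-- A monotone cofinal map from `ω^ω` to `J`. -/
theorem exists_map : ∃ φ : (ℕ → ℕ) → J, Monotone φ ∧ ∀ i, ∃ f, i ≤ φ f := by
  obtain ⟨F, hF1, hF2⟩ := exists_scale
  have h1 : ∀ f : ℕ → ℕ, {i | ¬ LeStar (F i) f}.Nonempty := by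
    intro f
    by_contra hcon
    rw [not_nonempty_iff_eq_empty, eq_empty_iff_forall_notMem] at hcon
    apply hF2
    refine ⟨f, ?_⟩
    rintro _ ⟨i, rfl⟩
    by_contra hc
    exact hcon i hc
  have h2 : ∀ f : ℕ → ℕ, ∃ i, ¬ LeStar (F i) f ∧ ∀ j, j < i → LeStar (F j) f := by
    intro f
    obtain ⟨i, hi, hmin⟩ := WellFounded.has_min (wellFounded_lt (α := J)) _ (h1 f)
    exact ⟨i, hi, fun j hj => by
      by_contra hc
      exact hmin j hc hj⟩
  choose φ hφ1 hφ2 using h2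
  refine ⟨φ, ?_, ?_⟩
  · intro f g hfg
    by_contra hcon
    push Not at hcon
    exact hφ1 g ((hφ2 f _ hcon).trans (LeStar.of_le hfg))
  · intro i
    refine ⟨F i, ?_⟩
    by_contra hcon
    push Not at hcon
    exact hφ1 (F i) (hF1 _ _ hcon.le)

/-- The `ω^ω`-base of `HH J`. -/
theorem base_J (x : HH J) : ∃ V : (ℕ → ℕ) → Set (HH J), (∀ a b, a ≤ b → V b ⊆ V a) ∧
    (𝓝 x).HasBasis (fun _ => True) V := by
  have := good_J.noMax
  have := good_J.nonempty
  obtain ⟨φ, hφ1, hφ2⟩ := exists_map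
  refine ⟨fun f => U x (φ f), fun a b hab => U_anti x (hφ1 hab), ?_⟩
  refine (nhds_basis x).to_hasBasis ?_ ?_
  · intro α _
    obtain ⟨f, hf⟩ := hφ2 α
    exact ⟨f, trivial, U_anti x hf⟩
  · intro f _
    exact ⟨φ f, trivial, subset_rfl⟩

/-- The open subgroups form a neighbourhood base at the identity. -/
theorem nonarch : NonarchimedeanGroup (Multiplicative (HH J)) where
  is_nonarchimedean W hW := by
    have := good_J.noMax
    have := good_J.nonempty
    obtain ⟨α, -, hα⟩ := (nhds_basis (0 : HH J)).mem_iff.mp hW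
    refine ⟨⟨⟨⟨⟨(U (0 : HH J) α : Set (HH J)), ?_⟩, ?_⟩, ?_⟩, ?_⟩, ?_⟩
    · intro a b ha hb β hβ
      have h1 : (HH.fn a) β = 0 := ha β hβ
      have h2 : (HH.fn b) β = 0 := hb β hβ
      change (HH.fn a + HH.fn b) β = 0
      simp [h1, h2]
    · exact self_mem_U _ _
    · intro a ha β hβ
      have h1 : (HH.fn a) β = 0 := ha β hβ
      change (-HH.fn a) β = 0
      simp [h1]
    · exact U_open (0 : HH J) α
    · exact hα

theorem isGO_J : (∀ a : HH J, IsOpen (Iio a) ∧ IsOpen (Ioi a)) ∧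
    ∀ x : HH J, ∀ V ∈ 𝓝 x, ∃ C : Set (HH J), IsOpen C ∧ C.OrdConnected ∧ x ∈ C ∧ C ⊆ V := by
  have := good_J.noMax
  have := good_J.nonempty
  refine ⟨fun a => ⟨isOpen_Iio, isOpen_Ioi⟩, fun x V hV => ?_⟩
  have : NoMaxOrder (HH J) := ⟨fun a => ⟨a + eh (Classical.arbitrary J), by
    simpa using eh_pos (Classical.arbitrary J)⟩⟩
  have : NoMinOrder (HH J) := ⟨fun a => ⟨a - eh (Classical.arbitrary J), by
    simpa using eh_pos (Classical.arbitrary J)⟩⟩
  obtain ⟨⟨a, b⟩, ⟨ha, hb⟩, hab⟩ := (nhds_basis_Ioo x).mem_iff.mp hV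
  exact ⟨Ioo a b, isOpen_Ioo, ordConnected_Ioo, ⟨ha, hb⟩, hab⟩

/-- Continuous characters separate the points. -/
theorem map_J (x : Multiplicative (HH J)) (hx : x ≠ 1) :
    ∃ χ : Multiplicative (HH J) →* Circle, Continuous χ ∧ χ x ≠ 1 := by
  have := good_J.noMax
  have := good_J.nonempty
  set X : HH J := Multiplicative.toAdd x with hX
  have hX0 : X.fn ≠ 0 := by
    intro h
    apply hx
    have : X = 0 := HH.ext h
    exact congrArg Multiplicative.ofAdd this
  obtain ⟨β, hβ⟩ := Function.ne_iff.mp hX0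
  have hβ' : (X.fn β : ℝ) ≠ 0 := by exact_mod_cast hβ
  let c : ℝ := Real.pi / X.fn β
  let χ : Multiplicative (HH J) →* Circle :=
    { toFun := fun y => Circle.exp (c * ((Multiplicative.toAdd y : HH J).fn β : ℝ))
      map_one' := by
        change Circle.exp (c * (((0 : HH J).fn β : ℤ) : ℝ)) = 1
        simp
      map_mul' := fun y z => by
        change Circle.exp (c * ((((Multiplicative.toAdd y : HH J) +
          (Multiplicative.toAdd z : HH J)).fn β : ℤ) : ℝ)) = _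
        rw [HH.fn_add, Pi.add_apply, Int.cast_add, mul_add, Circle.exp_add] }
  refine ⟨χ, ?_, ?_⟩
  · obtain ⟨α, hα⟩ := exists_gt β
    rw [continuous_iff_continuousAt]
    intro y
    have h1 : ∀ᶠ z : HH J in 𝓝 (Multiplicative.toAdd y : HH J), z ∈ U (Multiplicative.toAdd y : HH J) α :=
      (U_open _ α).mem_nhds (self_mem_U _ _)
    have h2 : ∀ z : HH J, z ∈ U (Multiplicative.toAdd y : HH J) α →
        χ (Multiplicative.ofAdd z) = χ y := by
      intro z hz
      have h3 : z.fn β = (Multiplicative.toAdd y : HH J).fn β := hz β hα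
      change Circle.exp (c * (z.fn β : ℝ)) = Circle.exp (c * ((Multiplicative.toAdd y : HH J).fn β : ℝ))
      rw [h3]
    have h4 : (fun z => χ z) =ᶠ[𝓝 y] (fun _ => χ y) := by
      have h5 : ∀ᶠ z : HH J in 𝓝 (Multiplicative.toAdd y : HH J),
          χ (Multiplicative.ofAdd z) = χ y := h1.mono h2
      exact h5
    exact (continuousAt_const.congr h4.symm)
  · change Circle.exp (c * (X.fn β : ℝ)) ≠ 1
    have h1 : c * (X.fn β : ℝ) = Real.pi := div_mul_cancel₀ _ hβ'
    rw [h1]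
    exact Circle.exp_pi_ne_one

end Pool.Agent.R822.Suit
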