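import Mathlib

/-!
Core combinatorics for suitable sets: a subgroup `H` of `I → ℤ` (for a well-order `I` of regular
uncountable type) generated by the unit vectors and by indicators of cofinal `ω`-sequences, and
the proof that `H` has no suitable set in the topology of agreement on initial segments.
-/

namespace Pool.Agent.R822.Suit

open Cardinal Set

/-- The index sets used: well-orders such that proper initial segments are smaller than `κ`,
sets smaller than `κ` are bounded, and `κ` is uncountable. -/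
structure Good (I : Type) [LinearOrder I] [WellFoundedLT I] (κ : Cardinal.{0}) : Prop where
  unc : ℵ₀ < κ
  seg : ∀ i : I, #(Iio i) < κ
  bdd : ∀ s : Set I, #s < κ → ∃ b, ∀ x ∈ s, x < b

variable {I : Type} [LinearOrder I] [WellFoundedLT I]

set_option linter.unusedSectionVars false

/-- The unit vector at `i`. -/
noncomputable def e (i : I) : I → ℤ := Pi.single i 1

open Classical in
/-- If `α` is the supremum of a strictly increasing sequence, the indicator function of the range
of one such sequence (chosen once and for all); otherwise `0`. -/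
noncomputable def g (α : I) : I → ℤ :=
  if h : ∃ a : ℕ → I, StrictMono a ∧ IsLUB (range a) α then
    (range h.choose).indicator 1 else 0

/-- The subgroup generated by all unit vectors and all the sequence indicators. -/
noncomputable def H (I : Type) [LinearOrder I] [WellFoundedLT I] : AddSubgroup (I → ℤ) :=
  AddSubgroup.closure (range e ∪ range g)

/-- The subgroup generated by the generators with index below `δ`. -/
noncomputable def Hd (δ : I) : AddSubgroup (I → ℤ) :=
  AddSubgroup.closure (e '' Iio δ ∪ g '' Iio δ)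

theorem e_mem (i : I) : e i ∈ H I := AddSubgroup.subset_closure (Or.inl ⟨i, rfl⟩)

theorem g_mem (i : I) : g i ∈ H I := AddSubgroup.subset_closure (Or.inr ⟨i, rfl⟩)

theorem e_memd {i δ : I} (h : i < δ) : e i ∈ Hd δ :=
  AddSubgroup.subset_closure (Or.inl ⟨i, h, rfl⟩)

theorem g_memd {i δ : I} (h : i < δ) : g i ∈ Hd δ :=
  AddSubgroup.subset_closure (Or.inr ⟨i, h, rfl⟩)

theorem Hd_mono {δ δ' : I} (h : δ ≤ δ') : Hd δ ≤ Hd δ' := by
  apply AddSubgroup.closure_mono
  apply union_subset_union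
  · exact image_mono (Iio_subset_Iio h)
  · exact image_mono (Iio_subset_Iio h)

theorem Hd_le (δ : I) : Hd δ ≤ H I := by
  apply AddSubgroup.closure_mono
  apply union_subset_union
  · exact image_subset_range _ _
  · exact image_subset_range _ _

theorem e_apply_of_ne {i j : I} (h : j ≠ i) : e i j = 0 := by
  simp [e, h]

theorem e_apply_self (i : I) : e i i = 1 := by simp [e]

/-- `g α` is supported below `α`. -/
theorem g_apply_of_le {α β : I} (h : α ≤ β) : g α β = 0 := by
  classical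
  unfold g
  split_ifs with hh
  · rw [indicator_of_notMem]
    rintro ⟨n, hn⟩
    have h1 := hh.choose_spec.1
    have h2 := hh.choose_spec.2
    have h3 : hh.choose (n+1) ≤ α := h2.1 ⟨n+1, rfl⟩
    have h4 : hh.choose n < hh.choose (n+1) := h1 (Nat.lt_succ_self n)
    rw [hn] at h4
    exact absurd (lt_of_lt_of_le h4 h3) (not_lt.mpr h)
  · rfl

theorem g_supp_countable (α : I) : {β | g α β ≠ 0}.Countable := by
  classical
  by_cases hh : ∃ a : ℕ → I, StrictMono a ∧ IsLUB (range a) α
  · refine (countable_range hh.choose).mono ?_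
    intro β hβ
    by_contra hc
    apply hβ
    unfold g
    rw [dif_pos hh, indicator_of_notMem hc]
  · refine countable_empty.mono ?_
    intro β hβ
    apply hβ
    unfold g
    rw [dif_neg hh]
    rfl

/-- Elements of `Hd δ` are supported below `δ`. -/
theorem Hd_supp {δ : I} {p : I → ℤ} (hp : p ∈ Hd δ) {β : I} (h : δ ≤ β) : p β = 0 := by
  unfold Hd at hp
  induction hp using AddSubgroup.closure_induction with
  | mem x hx =>
    rcases hx with ⟨i, hi, rfl⟩ | ⟨i, hi, rfl⟩
    · exact e_apply_of_ne (ne_of_gt (lt_of_lt_of_le hi h))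
    · exact g_apply_of_le (le_trans (le_of_lt hi) h)
  | zero => rfl
  | add x y _ _ hx hy => simp [hx, hy]
  | neg x _ hx => simp [hx]

/-- Restrictions of `g α` below `δ < α` are finite sums of unit vectors below `δ`. -/
theorem g_restrict {α δ : I} (h : δ < α) : ∃ p ∈ Hd δ, ∀ β < δ, p β = g α β := by
  classical
  by_cases hh : ∃ a : ℕ → I, StrictMono a ∧ IsLUB (range a) α
  · have h1 := hh.choose_spec.1
    have h2 := hh.choose_spec.2
    set a := hh.choose with ha
    have hg : g α = (range a).indicator 1 := by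
      unfold g; rw [dif_pos hh]
    -- some a N ≥ δ
    obtain ⟨N, hN⟩ : ∃ N, δ ≤ a N := by
      by_contra hcon
      push Not at hcon
      exact absurd (h2.2 (by rintro _ ⟨n, rfl⟩; exact (hcon n).le)) (not_le.mpr h)
    refine ⟨∑ n ∈ (Finset.range N).filter (fun n => a n < δ), e (a n), ?_, ?_⟩
    · apply AddSubgroup.sum_mem
      intro n hn
      exact e_memd (Finset.mem_filter.mp hn).2
    · intro β hβ
      rw [hg, Finset.sum_apply]
      by_cases hb : β ∈ range a
      · obtain ⟨m, rfl⟩ := hb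
        rw [indicator_of_mem (mem_range_self m)]
        have hm : m < N := by
          by_contra hc
          exact absurd (lt_of_lt_of_le hβ (hN.trans (h1.monotone (not_lt.mp hc)))) (lt_irrefl _)
        rw [Finset.sum_eq_single m]
        · simp [e_apply_self]
        · intro n _ hne
          exact e_apply_of_ne (fun hc => hne (h1.injective hc).symm)
        · intro hc
          exact absurd (Finset.mem_filter.mpr ⟨Finset.mem_range.mpr hm, hβ⟩) hc
      · rw [indicator_of_notMem hb]
        apply Finset.sum_eq_zero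
        intro n _
        exact e_apply_of_ne (fun hc => hb ⟨n, hc.symm⟩)
  · refine ⟨0, AddSubgroup.zero_mem _, fun β _ => ?_⟩
    unfold g
    rw [dif_neg hh]

/-- Lemma A: every element of `H` agrees below `δ` with an element of `Hd δ`, for all but finitely
many `δ`. -/
theorem lemmaA {s : I → ℤ} (hs : s ∈ H I) :
    {δ : I | ¬ ∃ p ∈ Hd δ, ∀ β < δ, p β = s β}.Finite := by
  unfold H at hs
  induction hs using AddSubgroup.closure_induction with
  | mem x hx =>
    rcases hx with ⟨i, rfl⟩ | ⟨i, rfl⟩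
    · apply Set.Finite.subset (Set.finite_empty)
      intro δ hδ
      exfalso
      apply hδ
      by_cases h : i < δ
      · exact ⟨e i, e_memd h, fun _ _ => rfl⟩
      · refine ⟨0, AddSubgroup.zero_mem _, fun β hβ => ?_⟩
        rw [e_apply_of_ne (ne_of_lt (lt_of_lt_of_le hβ (not_lt.mp h)))]
        rfl
    · apply Set.Finite.subset (Set.finite_singleton i)
      intro δ hδ
      rcases lt_trichotomy i δ with h | h | h
      · exact absurd ⟨g i, g_memd h, fun _ _ => rfl⟩ hδ
      · exact h.symm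
      · exact absurd (g_restrict h) hδ
  | zero =>
    apply Set.Finite.subset (Set.finite_empty)
    intro δ hδ
    exact absurd ⟨0, AddSubgroup.zero_mem _, fun _ _ => rfl⟩ hδ
  | add x y _ _ hx hy =>
    apply Set.Finite.subset (hx.union hy)
    intro δ hδ
    by_contra hc
    simp only [mem_union, mem_ofPred_eq, not_or, not_not] at hc
    obtain ⟨⟨p, hp, hp'⟩, q, hq, hq'⟩ := hc
    exact hδ ⟨p + q, AddSubgroup.add_mem _ hp hq, fun β hβ => by
      simp [hp' β hβ, hq' β hβ]⟩
  | neg x _ hx =>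
    apply Set.Finite.subset hx
    intro δ hδ hc
    obtain ⟨p, hp, hp'⟩ := hc
    exact hδ ⟨-p, AddSubgroup.neg_mem _ hp, fun β hβ => by simp [hp' β hβ]⟩

theorem exists_lub {κ : Cardinal.{0}} (hI : Good I κ) (s : ℕ → I) : ∃ c, IsLUB (range s) c := by
  have h1 : #(range s) < κ := lt_of_le_of_lt mk_range_le (by simpa using hI.unc)
  obtain ⟨b, hb⟩ := hI.bdd _ h1
  have hne : (upperBounds (range s)).Nonempty := ⟨b, fun x hx => (hb x hx).le⟩
  obtain ⟨c, hc, hmin⟩ := WellFounded.has_min (wellFounded_lt (α := I)) _ hne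
  exact ⟨c, hc, fun d hd => not_lt.mp (hmin d hd)⟩

theorem lt_lub {s : ℕ → I} {c δ : I} (hc : IsLUB (range s) c) (h : δ < c) : ∃ n, δ < s n := by
  by_contra hcon
  push Not at hcon
  exact absurd (hc.2 (by rintro _ ⟨n, rfl⟩; exact hcon n)) (not_le.mpr h)

theorem card_Hd {κ : Cardinal.{0}} (hI : Good I κ) (δ : I) : #(Hd δ : Set (I → ℤ)) < κ := by
  set G : Set (I → ℤ) := e '' Iio δ ∪ g '' Iio δ with hG
  have h1 : #G < κ := by
    refine lt_of_le_of_lt (mk_union_le _ _) ?_
    exact add_lt_of_lt hI.unc.le (lt_of_le_of_lt mk_image_le (hI.seg δ))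
      (lt_of_le_of_lt mk_image_le (hI.seg δ))
  have h2 : (Hd δ : Set (I → ℤ)) = range (Finsupp.linearCombination ℤ (Subtype.val : G → I → ℤ)) := by
    have h3 : (Hd δ : Set (I → ℤ)) = (Submodule.span ℤ G : Set (I → ℤ)) := by
      rw [← Submodule.coe_toAddSubgroup, Submodule.span_int_eq_addSubgroupClosure]
      rfl
    rw [h3]
    conv_lhs => rw [← Subtype.range_coe (s := G)]
    rw [← Finsupp.range_linearCombination]
    rfl
  rw [h2]
  refine lt_of_le_of_lt mk_range_le ?_
  rcases isEmpty_or_nonempty G with h | h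
  · have : #(G →₀ ℤ) ≤ 1 := by
      rw [Cardinal.le_one_iff_subsingleton]
      infer_instance
    exact lt_of_le_of_lt this (lt_trans one_lt_aleph0 hI.unc)
  · rw [Cardinal.mk_finsupp_of_infinite']
    exact max_lt h1 (by simpa using hI.unc)

/-- Closing off: for every `b`, the `δ` with `b p ≤ δ` for all `p ∈ Hd δ` are unbounded. -/
theorem closing {κ : Cardinal.{0}} (hI : Good I κ) (b : (I → ℤ) → I) (δ₀ : I) :
    ∃ δ, δ₀ < δ ∧ ∀ p ∈ Hd δ, b p ≤ δ := by
  -- step function
  have step : ∀ δ : I, ∃ δ', δ < δ' ∧ ∀ p ∈ Hd δ, b p ≤ δ' := by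
    intro δ
    have h1 : #(b '' (Hd δ : Set (I → ℤ)) ∪ {δ} : Set I) < κ := by
      refine lt_of_le_of_lt (mk_union_le _ _) ?_
      refine add_lt_of_lt hI.unc.le (lt_of_le_of_lt mk_image_le (card_Hd hI δ)) ?_
      simpa using lt_trans one_lt_aleph0 hI.unc
    obtain ⟨c, hc⟩ := hI.bdd _ h1
    exact ⟨c, hc δ (Or.inr rfl), fun p hp => (hc _ (Or.inl ⟨p, hp, rfl⟩)).le⟩
  choose f hf1 hf2 using step
  let s : ℕ → I := fun n => Nat.rec δ₀ (fun _ x => f x) n
  have hs0 : s 0 = δ₀ := rfl
  have hss : ∀ n, s (n+1) = f (s n) := fun n => rfl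
  have hmono : StrictMono s := strictMono_nat_of_lt_succ (fun n => by rw [hss]; exact hf1 _)
  -- least upper bound
  obtain ⟨c, hc⟩ := exists_lub hI s
  refine ⟨c, ?_, ?_⟩
  · exact lt_of_lt_of_le (hmono Nat.zero_lt_one) (hc.1 ⟨1, rfl⟩)
  · intro p hp
    -- p ∈ Hd (s n) for some n
    obtain ⟨n, hn⟩ : ∃ n, p ∈ Hd (s n) := by
      unfold Hd at hp
      induction hp using AddSubgroup.closure_induction with
      | mem x hx =>
        rcases hx with ⟨i, hi, rfl⟩ | ⟨i, hi, rfl⟩
        · obtain ⟨n, hn⟩ := lt_lub hc hi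
          exact ⟨n, e_memd hn⟩
        · obtain ⟨n, hn⟩ := lt_lub hc hi
          exact ⟨n, g_memd hn⟩
      | zero => exact ⟨0, AddSubgroup.zero_mem _⟩
      | add x y _ _ hx hy =>
        obtain ⟨n, hn⟩ := hx
        obtain ⟨m, hm⟩ := hy
        exact ⟨max n m, AddSubgroup.add_mem _ (Hd_mono (hmono.monotone (le_max_left _ _)) hn)
          (Hd_mono (hmono.monotone (le_max_right _ _)) hm)⟩
      | neg x _ hx =>
        obtain ⟨n, hn⟩ := hx
        exact ⟨n, AddSubgroup.neg_mem _ hn⟩
    calc b p ≤ f (s n) := hf2 _ p hn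
      _ = s (n+1) := rfl
      _ ≤ c := hc.1 ⟨n+1, rfl⟩

/-- The main point: no subset of `H` is suitable. -/
theorem core {κ : Cardinal.{0}} (hI : Good I κ) (S : Set (I → ℤ)) (hS : S ⊆ (H I : Set (I → ℤ)))
    (h1 : ∀ p ∈ H I, p ≠ 0 → ∃ α, ∀ t ∈ S, (∀ β < α, t β = p β) → t = p)
    (h2 : ∀ x ∈ H I, ∀ α, ∃ t ∈ AddSubgroup.closure S, ∀ β < α, t β = x β) : False := by
  classical
  obtain ⟨i0⟩ : Nonempty I := by
    obtain ⟨b, _⟩ := hI.bdd ∅ (by simpa using lt_trans aleph0_pos hI.unc)
    exact ⟨b⟩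
  -- the bound function
  have hb : ∃ b : (I → ℤ) → I, ∀ p ∈ H I, p ≠ 0 → ∀ t ∈ S, (∀ β < b p, t β = p β) → t = p := by
    have : ∀ p : I → ℤ, ∃ α : I, p ∈ H I → p ≠ 0 → ∀ t ∈ S, (∀ β < α, t β = p β) → t = p := by
      intro p
      by_cases hp : p ∈ H I ∧ p ≠ 0
      · obtain ⟨α, hα⟩ := h1 p hp.1 hp.2
        exact ⟨α, fun _ _ => hα⟩
      · exact ⟨i0, fun ha hb => absurd ⟨ha, hb⟩ hp⟩
    choose b hb using this
    exact ⟨b, hb⟩
  obtain ⟨b, hb⟩ := hb
  choose f hf1 hf2 using closing hI b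
  let s : ℕ → I := fun n => Nat.rec i0 (fun _ x => f x) n
  have hss : ∀ n, s (n+1) = f (s n) := fun n => rfl
  have hmono : StrictMono s := strictMono_nat_of_lt_succ (fun n => by rw [hss]; exact hf1 _)
  obtain ⟨α, hα⟩ := exists_lub hI s
  have hex : ∃ a : ℕ → I, StrictMono a ∧ IsLUB (range a) α := ⟨s, hmono, hα⟩
  have ha1 := hex.choose_spec.1
  have ha2 := hex.choose_spec.2
  have hg : g α = (range hex.choose).indicator 1 := by
    unfold g; rw [dif_pos hex]
  -- an element of the closure of S agreeing with g α below α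
  obtain ⟨t, ht, htg⟩ := h2 (g α) (g_mem α) α
  -- cofinal support passes to a generator
  have hsup : ∃ x ∈ S, ∀ δ < α, ∃ β, δ ≤ β ∧ β < α ∧ x β ≠ 0 := by
    by_contra hcon
    push Not at hcon
    -- every element of closure S has bounded support below α
    have hall : ∀ y ∈ AddSubgroup.closure S, ∃ δ < α, ∀ β, δ ≤ β → β < α → y β = 0 := by
      intro y hy
      induction hy using AddSubgroup.closure_induction with
      | mem x hx => exact hcon x hx
      | zero =>
        exact ⟨s 0, lt_of_lt_of_le (hmono Nat.zero_lt_one) (hα.1 ⟨1, rfl⟩), fun _ _ _ => rfl⟩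
      | add x y _ _ hx hy =>
        obtain ⟨δ, hδ, h⟩ := hx
        obtain ⟨δ', hδ', h'⟩ := hy
        exact ⟨max δ δ', max_lt hδ hδ', fun β h1 h2 => by
          simp [h β ((le_max_left _ _).trans h1) h2, h' β ((le_max_right _ _).trans h1) h2]⟩
      | neg x _ hx =>
        obtain ⟨δ, hδ, h⟩ := hx
        exact ⟨δ, hδ, fun β h1 h2 => by simp [h β h1 h2]⟩
    obtain ⟨δ, hδ, h⟩ := hall t ht
    obtain ⟨n, hn⟩ := lt_lub ha2 hδ
    have hlt : hex.choose n < α :=
      lt_of_lt_of_le (ha1 (Nat.lt_succ_self n)) (ha2.1 ⟨n+1, rfl⟩)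
    have h3 := h _ hn.le hlt
    rw [htg _ hlt, hg, indicator_of_mem (mem_range_self n)] at h3
    simp at h3
  obtain ⟨x, hxS, hx⟩ := hsup
  -- non-exceptional n
  have hfin := lemmaA (hS hxS)
  -- first nonzero coordinate of x below α
  obtain ⟨β₀, -, hβ₀, hxβ₀⟩ := hx (s 0)
    (lt_of_lt_of_le (hmono Nat.zero_lt_one) (hα.1 ⟨1, rfl⟩))
  obtain ⟨n₀, hn₀⟩ := lt_lub hα hβ₀
  obtain ⟨n, hn, hgood⟩ : ∃ n, n₀ ≤ n ∧ ∃ p ∈ Hd (s (n+1)), ∀ β < s (n+1), p β = x β := by
    by_contra hcon
    push Not at hcon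
    have : (range (fun k : ℕ => s (n₀ + k + 1))) ⊆ {δ : I | ¬ ∃ p ∈ Hd δ, ∀ β < δ, p β = x β} := by
      rintro _ ⟨k, rfl⟩
      rintro ⟨p, hp, hp'⟩
      obtain ⟨β, hβ1, hβ2⟩ := hcon (n₀ + k) (by omega) p hp
      exact hβ2 (hp' β hβ1)
    have hinf : (range (fun k : ℕ => s (n₀ + k + 1))).Infinite := by
      apply Set.infinite_range_of_injective
      intro k l hkl
      have : n₀ + k + 1 = n₀ + l + 1 := hmono.injective hkl
      omega
    exact hinf (hfin.subset this)
  obtain ⟨p, hp, hpx⟩ := hgood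
  have hβ1 : β₀ < s (n+1) := lt_of_lt_of_le hn₀ (hmono.monotone (Nat.le_succ_of_le hn))
  have hpne : p ≠ 0 := by
    intro h0
    apply hxβ₀
    rw [← hpx β₀ hβ1, h0]; rfl
  have hbp : b p ≤ s (n+1) := by
    rw [hss]; rw [hss] at hp
    exact hf2 _ p hp
  have hxp : x = p := hb p (Hd_le _ hp) hpne x hxS
    (fun β hβ => (hpx β (lt_of_lt_of_le hβ hbp)).symm)
  obtain ⟨β₁, hβ₁, hβ₁', hne⟩ := hx (s (n+1))
    (lt_of_lt_of_le (hmono (Nat.lt_succ_self (n+1))) (hα.1 ⟨n+1+1, rfl⟩))
  apply hne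
  rw [hxp]
  exact Hd_supp hp hβ₁

end Pool.Agent.R822.Suit
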