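import Pool.Agent.R822.SuitCore

/-!
The ordered group `HH I`: the subgroup `H I` of `I → ℤ` with the lexicographic order and its
order topology.
-/

namespace Pool.Agent.R822.Suit

open Cardinal Set Topology

variable {I : Type} [LinearOrder I] [WellFoundedLT I]

set_option linter.unusedSectionVars false

/-- The group `H I` (a wrapper, so that it can carry the lexicographic order). -/
def HH (I : Type) [LinearOrder I] [WellFoundedLT I] : Type := H I

/-- The underlying function. -/
def HH.fn (x : HH I) : I → ℤ := Subtype.val (p := fun y => y ∈ H I) x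

noncomputable instance : AddCommGroup (HH I) := inferInstanceAs (AddCommGroup (H I))

theorem HH.fn_mem (x : HH I) : x.fn ∈ H I := Subtype.property (p := fun y => y ∈ H I) x

/-- Build an element from a function. -/
def HH.mk (f : I → ℤ) (hf : f ∈ H I) : HH I := (⟨f, hf⟩ : H I)

@[simp] theorem HH.fn_mk (f : I → ℤ) (hf : f ∈ H I) : (HH.mk f hf).fn = f := rfl
@[simp] theorem HH.fn_zero : (0 : HH I).fn = 0 := rfl
@[simp] theorem HH.fn_add (x y : HH I) : (x + y).fn = x.fn + y.fn := rfl
@[simp] theorem HH.fn_neg (x : HH I) : (-x).fn = -x.fn := rfl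
@[simp] theorem HH.fn_sub (x y : HH I) : (x - y).fn = x.fn - y.fn := rfl

@[ext] theorem HH.ext {x y : HH I} (h : x.fn = y.fn) : x = y := Subtype.ext h

/-- The inclusion as an additive homomorphism. -/
def HH.hom : HH I →+ (I → ℤ) where
  toFun := HH.fn
  map_zero' := rfl
  map_add' _ _ := rfl

noncomputable instance : LinearOrder (HH I) :=
  LinearOrder.lift' (fun x => toLex x.fn) (fun _ _ h => HH.ext (toLex_inj.mp h))

theorem HH.lt_iff {x y : HH I} :
    x < y ↔ ∃ i, (∀ j < i, x.fn j = y.fn j) ∧ x.fn i < y.fn i := Iff.rfl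

theorem HH.le_iff {x y : HH I} : x ≤ y ↔ toLex x.fn ≤ toLex y.fn := Iff.rfl

instance : IsOrderedAddMonoid (HH I) where
  add_le_add_left a b h c := by
    rw [HH.le_iff] at *
    exact add_le_add_left h (toLex c.fn)

noncomputable instance : TopologicalSpace (HH I) := Preorder.topology (HH I)
instance : OrderTopology (HH I) := ⟨rfl⟩

/-- Functions agreeing with `x` below `α`. -/
def U (x : HH I) (α : I) : Set (HH I) := {y | ∀ β < α, y.fn β = x.fn β}

theorem U_anti (x : HH I) {α α' : I} (h : α ≤ α') : U x α' ⊆ U x α :=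
  fun _ hy β hβ => hy β (lt_of_lt_of_le hβ h)

theorem self_mem_U (x : HH I) (α : I) : x ∈ U x α := fun _ _ => rfl

/-- The unit vector in `HH`. -/
noncomputable def eh (i : I) : HH I := HH.mk (e i) (e_mem i)

theorem eh_pos (i : I) : (0 : HH I) < eh i := by
  rw [HH.lt_iff]
  refine ⟨i, fun j hj => ?_, ?_⟩
  · simp [eh, e_apply_of_ne (ne_of_lt hj)]
  · simp [eh, e_apply_self]

theorem nhds_basis [NoMaxOrder I] [Nonempty I] (x : HH I) :
    (𝓝 x).HasBasis (fun _ : I => True) (fun α => U x α) := by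
  have h1 : (𝓝 x).HasBasis (fun p : HH I × HH I => p.1 < x ∧ x < p.2)
      (fun p => Ioo p.1 p.2) := by
    have : NoMaxOrder (HH I) := ⟨fun a => ⟨a + eh (Classical.arbitrary I), by
      simpa using eh_pos (Classical.arbitrary I)⟩⟩
    have : NoMinOrder (HH I) := ⟨fun a => ⟨a - eh (Classical.arbitrary I), by
      simpa using eh_pos (Classical.arbitrary I)⟩⟩
    exact nhds_basis_Ioo x
  refine h1.to_hasBasis ?_ ?_
  · rintro ⟨a, b⟩ ⟨ha, hb⟩
    rw [HH.lt_iff] at ha hb
    obtain ⟨i, hi, hi'⟩ := ha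
    obtain ⟨j, hj, hj'⟩ := hb
    obtain ⟨α, hα⟩ := exists_gt (max i j)
    refine ⟨α, trivial, fun y hy => ⟨?_, ?_⟩⟩
    · rw [HH.lt_iff]
      have hiα : i < α := lt_of_le_of_lt (le_max_left _ _) hα
      exact ⟨i, fun k hk => by rw [hi k hk, hy k (hk.trans hiα)], by rw [hy i hiα]; exact hi'⟩
    · rw [HH.lt_iff]
      have hjα : j < α := lt_of_le_of_lt (le_max_right _ _) hα
      exact ⟨j, fun k hk => by rw [hy k (hk.trans hjα), hj k hk], by rw [hy j hjα]; exact hj'⟩
  · intro α _
    refine ⟨(x - eh α, x + eh α), ⟨by simpa using eh_pos α, by simpa using eh_pos α⟩, ?_⟩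
    rintro y ⟨hy1, hy2⟩
    rw [HH.lt_iff] at hy1 hy2
    obtain ⟨i, hi, hi'⟩ := hy1
    obtain ⟨j, hj, hj'⟩ := hy2
    have h0 : ∀ k < α, (eh α).fn k = 0 := fun k hk => by simp [eh, e_apply_of_ne (ne_of_lt hk)]
    intro β hβ
    by_contra hne
    -- first difference
    obtain ⟨β₀, ⟨hβ₀, hne₀⟩, hmin⟩ := WellFounded.has_min (wellFounded_lt (α := I))
      {β | β < α ∧ y.fn β ≠ x.fn β} ⟨β, hβ, hne⟩
    have hag : ∀ k < β₀, y.fn k = x.fn k := by
      intro k hk
      by_contra hc
      exact hmin k ⟨hk.trans hβ₀, hc⟩ hk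
    have e1 : x.fn β₀ < y.fn β₀ := by
      rcases lt_trichotomy i β₀ with h | h | h
      · rw [hag i h] at hi'
        simp [h0 i (h.trans hβ₀)] at hi'
      · subst h
        simpa [h0 i hβ₀] using hi'
      · have := hi β₀ h
        simp only [HH.fn_sub, Pi.sub_apply, h0 β₀ hβ₀, sub_zero] at this
        exact absurd this.symm hne₀
    have e2 : y.fn β₀ < x.fn β₀ := by
      rcases lt_trichotomy j β₀ with h | h | h
      · rw [hag j h] at hj'
        simp [h0 j (h.trans hβ₀)] at hj'
      · subst h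
        simpa [h0 j hβ₀] using hj'
      · have := hj β₀ h
        simp only [HH.fn_add, Pi.add_apply, h0 β₀ hβ₀, add_zero] at this
        exact absurd this hne₀
    exact absurd e1 (not_lt.mpr e2.le)

theorem U_open [NoMaxOrder I] [Nonempty I] (x : HH I) (α : I) : IsOpen (U x α) := by
  rw [isOpen_iff_mem_nhds]
  intro y hy
  rw [(nhds_basis y).mem_iff]
  exact ⟨α, trivial, fun z hz β hβ => (hz β hβ).trans (hy β hβ)⟩

theorem U_clopen [NoMaxOrder I] [Nonempty I] (x : HH I) (α : I) : IsClopen (U x α) := by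
  refine ⟨?_, U_open x α⟩
  rw [← isOpen_compl_iff, isOpen_iff_mem_nhds]
  intro y hy
  rw [(nhds_basis y).mem_iff]
  exact ⟨α, trivial, fun z hz hzx => hy (fun β hβ => (hz β hβ).symm.trans (hzx β hβ))⟩

theorem iInter_U [Nonempty I] [NoMaxOrder I] {x y : HH I} (h : ∀ α, y ∈ U x α) : y = x := by
  ext β
  obtain ⟨α, hα⟩ := exists_gt β
  exact h α β hα

instance [NoMaxOrder I] [Nonempty I] : TotallyDisconnectedSpace (HH I) := by
  rw [totallyDisconnectedSpace_iff_connectedComponent_singleton]
  intro x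
  refine subset_antisymm ?_ (singleton_subset_iff.mpr mem_connectedComponent)
  intro y hy
  rw [mem_singleton_iff]
  apply iInter_U
  intro α
  have := (U_clopen x α).connectedComponent_subset (self_mem_U x α)
  exact this hy

/-- A suitable set in an additive topological group. -/
def AddSuitable {G : Type} [AddGroup G] [TopologicalSpace G] (S : Set G) : Prop :=
  DiscreteTopology S ∧ IsClosed (S ∪ {0}) ∧ Dense (AddSubgroup.closure S : Set G)

theorem no_suitable {κ : Cardinal.{0}} (hI : Good I κ) [NoMaxOrder I] [Nonempty I]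
    (S : Set (HH I)) (h : AddSuitable S) : False := by
  obtain ⟨hd, hc, hdense⟩ := h
  refine core hI (HH.fn '' S) ?_ ?_ ?_
  · rintro _ ⟨x, -, rfl⟩
    exact x.fn_mem
  · intro p hp hp0
    set P : HH I := HH.mk p hp with hP
    have hP0 : P ≠ 0 := fun h => hp0 (by simpa [hP] using congrArg HH.fn h)
    -- a neighbourhood of P meeting S in at most P
    have hnh : ∃ V ∈ 𝓝 P, ∀ t ∈ S, t ∈ V → t = P := by
      by_cases hPS : P ∈ S
      · have h1 : IsOpen ({⟨P, hPS⟩} : Set S) := isOpen_discrete _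
        obtain ⟨O, hO, hO'⟩ := isOpen_induced_iff.mp h1
        refine ⟨O, hO.mem_nhds ?_, fun t ht htO => ?_⟩
        · have : (⟨P, hPS⟩ : S) ∈ Subtype.val ⁻¹' O := by rw [hO']; rfl
          exact this
        · have : (⟨t, ht⟩ : S) ∈ Subtype.val ⁻¹' O := htO
          rw [hO'] at this
          exact congrArg Subtype.val this
      · refine ⟨(S ∪ {0})ᶜ, hc.isOpen_compl.mem_nhds ?_, ?_⟩
        · rintro (h | h)
          · exact hPS h
          · exact hP0 h
        · intro t ht ht'
          exact absurd (Or.inl ht) ht'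
    obtain ⟨V, hV, hVS⟩ := hnh
    rw [(nhds_basis P).mem_iff] at hV
    obtain ⟨α, -, hα⟩ := hV
    refine ⟨α, ?_⟩
    rintro _ ⟨t, ht, rfl⟩ hag
    have := hVS t ht (hα hag)
    rw [this]; rfl
  · intro x hx α
    set X : HH I := HH.mk x hx
    obtain ⟨t, ht, ht'⟩ := hdense.exists_mem_open (U_open X α) ⟨X, self_mem_U X α⟩
    refine ⟨t.fn, ?_, ht'⟩
    have : HH.hom t ∈ (AddSubgroup.closure S).map HH.hom := ⟨t, ht, rfl⟩
    rw [AddMonoidHom.map_closure] at this
    exact this

/-- A suitable set in a topological group `G`: a discrete subspace `S` such that `S ∪ {1}` is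
closed and the subgroup generated by `S` is dense. -/
def IsSuitable {G : Type} [Group G] [TopologicalSpace G] (S : Set G) : Prop :=
  DiscreteTopology S ∧ IsClosed (S ∪ {1}) ∧ Dense (Subgroup.closure S : Set G)

theorem no_suitable_mul {κ : Cardinal.{0}} (hI : Good I κ) [NoMaxOrder I] [Nonempty I]
    (S : Set (Multiplicative (HH I))) (h : IsSuitable S) : False := by
  obtain ⟨h1, h2, h3⟩ := h
  refine no_suitable hI (Multiplicative.ofAdd ⁻¹' S) ⟨h1, h2, ?_⟩
  refine Dense.mono ?_ h3
  intro x hx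
  change Multiplicative.toAdd x ∈ AddSubgroup.closure (Multiplicative.ofAdd ⁻¹' S)
  induction hx using Subgroup.closure_induction with
  | mem x hx => exact AddSubgroup.subset_closure hx
  | one => exact AddSubgroup.zero_mem _
  | mul x y _ _ hx hy => exact AddSubgroup.add_mem _ hx hy
  | inv x _ hx => exact AddSubgroup.neg_mem _ hx

/-- Countable subsets of `I` are bounded. -/
theorem bdd_countable {κ : Cardinal.{0}} (hI : Good I κ) (s : Set I) (hs : s.Countable) :
    ∃ b, ∀ x ∈ s, x < b :=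
  hI.bdd s (lt_of_le_of_lt (by simpa using hs.le_aleph0) hI.unc)

theorem Good.noMax {κ : Cardinal.{0}} (hI : Good I κ) : NoMaxOrder I :=
  ⟨fun a => by
    obtain ⟨b, hb⟩ := bdd_countable hI {a} (countable_singleton a)
    exact ⟨b, hb a rfl⟩⟩

theorem Good.nonempty {κ : Cardinal.{0}} (hI : Good I κ) : Nonempty I := by
  obtain ⟨b, _⟩ := bdd_countable hI ∅ countable_empty
  exact ⟨b⟩

/-- Countable intersections of neighbourhoods of a point are neighbourhoods. -/
theorem nhds_iInter {κ : Cardinal.{0}} (hI : Good I κ) (x : HH I) (V : ℕ → Set (HH I))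
    (hV : ∀ n, V n ∈ 𝓝 x) : (⋂ n, V n) ∈ 𝓝 x := by
  have := hI.noMax
  have := hI.nonempty
  simp only [(nhds_basis x).mem_iff, true_and] at hV
  choose a ha using hV
  obtain ⟨b, hb⟩ := bdd_countable hI (range a) (countable_range a)
  rw [(nhds_basis x).mem_iff]
  exact ⟨b, trivial, subset_iInter fun n => (U_anti x (hb _ ⟨n, rfl⟩).le).trans (ha n)⟩

theorem eh_inj : Function.Injective (eh : I → HH I) := by
  intro i j h
  by_contra hne
  have h1 := congrFun (congrArg HH.fn h) i
  simp [eh, e_apply_self, e_apply_of_ne hne] at h1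

/-- No point of `HH I` is a `G_δ`. -/
theorem not_isGδ {κ : Cardinal.{0}} (hI : Good I κ) (x : HH I) : ¬ IsGδ ({x} : Set (HH I)) := by
  intro h
  have := hI.noMax
  have := hI.nonempty
  rw [isGδ_iff_eq_iInter_nat] at h
  obtain ⟨V, hV, hVx⟩ := h
  have h1 : ({x} : Set (HH I)) ∈ 𝓝 x := by
    rw [hVx]
    apply nhds_iInter hI
    intro n
    refine (hV n).mem_nhds ?_
    have : x ∈ ⋂ n, V n := by rw [← hVx]; rfl
    exact mem_iInter.mp this n
  rw [(nhds_basis x).mem_iff] at h1
  obtain ⟨α, -, hα⟩ := h1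
  have h2 : x + eh α ∈ U x α := fun β hβ => by
    simp [eh, e_apply_of_ne (ne_of_lt hβ)]
  have h3 := hα h2
  have h4 : (x + eh α).fn α = x.fn α := by rw [h3]
  simp [eh, e_apply_self] at h4

/-- `HH I` is not separable. -/
theorem not_separable {κ : Cardinal.{0}} (hI : Good I κ) : ¬ TopologicalSpace.SeparableSpace (HH I) := by
  intro h
  have := hI.noMax
  have := hI.nonempty
  obtain ⟨D, hDc, hD⟩ := TopologicalSpace.exists_countable_dense (HH I)
  -- a point outside `D`
  have hunc : ∃ x : HH I, x ∉ D := by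
    by_contra hcon
    push Not at hcon
    have h1 : (eh ⁻¹' D : Set I).Countable := hDc.preimage_of_injOn eh_inj.injOn
    have h2 : (eh ⁻¹' D : Set I) = Set.univ := eq_univ_of_forall fun i => hcon _
    rw [h2] at h1
    obtain ⟨b, hb⟩ := bdd_countable hI Set.univ h1
    exact absurd (hb b trivial) (lt_irrefl _)
  obtain ⟨x, hx⟩ := hunc
  have h1 : ∀ d ∈ D, ∃ α, d ∉ U x α := by
    intro d hd
    by_contra hcon
    push Not at hcon
    exact hx (iInter_U hcon ▸ hd)
  choose! a ha using h1
  obtain ⟨b, hb⟩ := bdd_countable hI (a '' D) (hDc.image a)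
  obtain ⟨d, hd, hdb⟩ := hD.exists_mem_open (U_open x b) ⟨x, self_mem_U x b⟩
  exact ha d hd (U_anti x (hb _ ⟨d, hd, rfl⟩).le hdb)

theorem good_of_regular (c : Cardinal.{0}) (hc : c.IsRegular) (hu : ℵ₀ < c) :
    Good c.ord.ToType c where
  unc := hu
  seg i := by
    have h : #(c.ord.ToType) = c := by simp
    have := Cardinal.mk_Iio_lt (α := c.ord.ToType) i (by simp)
    rwa [h] at this
  bdd s hs := by
    by_contra hcon
    push Not at hcon
    have h1 : IsCofinal s := fun b => by
      obtain ⟨x, hx, hbx⟩ := hcon b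
      exact ⟨x, hx, hbx⟩
    have h2 := Order.cof_le h1
    rw [Ordinal.cof_toType, hc.cof_ord] at h2
    exact absurd hs (not_lt.mpr h2)

theorem good_aleph_one : Good (ℵ_ 1 : Cardinal.{0}).ord.ToType (ℵ_ 1) :=
  good_of_regular _ isRegular_aleph_one aleph0_lt_aleph_one

end Pool.Agent.R822.Suit
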