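import Mathlib

/-!
Free topological groups over uniform spaces and Tukey reducibility: an omega-narrow uniform space
for which the neighbourhood filter of the free topological group is not Tukey below
`ω^ω × 𝒰^ω`.
-/

namespace Pool.Agent.R822.Tukey

open Cardinal Set Filter Topology Uniformity

/-- Tukey reducibility `P ≤_T Q`: some map `Q → P` sends cofinal sets to cofinal sets. -/
def TukeyLE (P Q : Type) [Preorder P] [Preorder Q] : Prop :=
  ∃ φ : Q → P, ∀ C : Set Q, IsCofinal C → IsCofinal (φ '' C)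

/-- A family of sets, ordered by reverse inclusion. -/
def RevSets {α : Type} (s : Set (Set α)) : Type := {U : Set α // U ∈ s}

instance {α : Type} (s : Set (Set α)) : Preorder (RevSets s) where
  le U V := V.1 ⊆ U.1
  le_refl _ := subset_rfl
  le_trans _ _ _ h1 h2 := h2.trans h1

/-- Uniform continuity of the canonical map of `X` into the free group on `X` with the topology
`t`, with respect to the two-sided uniformity. -/
def IsUC (X : Type) [UniformSpace X] (t : TopologicalSpace (FreeGroup X)) : Prop :=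
  Tendsto (fun p : X × X => (FreeGroup.of p.1)⁻¹ * FreeGroup.of p.2) (𝓤 X) (@nhds _ t 1) ∧
  Tendsto (fun p : X × X => FreeGroup.of p.1 * (FreeGroup.of p.2)⁻¹) (𝓤 X) (@nhds _ t 1)

/-- The group topologies for which the canonical map is uniformly continuous. -/
def Tops (X : Type) [UniformSpace X] : Set (TopologicalSpace (FreeGroup X)) :=
  {t | @IsTopologicalGroup _ t _ ∧ IsUC X t}

theorem isLeast_sInf (X : Type) [UniformSpace X] : IsLeast (Tops X) (sInf (Tops X)) := by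
  refine ⟨⟨topologicalGroup_sInf (fun t ht => ht.1), ?_, ?_⟩, fun t ht => sInf_le ht⟩
  · rw [nhds_sInf]
    simp only [tendsto_iInf]
    exact fun t ht => ht.2.1
  · rw [nhds_sInf]
    simp only [tendsto_iInf]
    exact fun t ht => ht.2.2

/-- The points of the example: a discrete part `κ` and a sequence. -/
inductive Pts (κ : Type) : Type
  | pt (γ : κ) : Pts κ
  | tm (n : ℕ) : Pts κ

open Pts

variable {κ : Type}

/-- Basic entourages: the points of `κ` in `A` and the first `n` terms of the sequence are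
isolated, the rest of `κ` and the rest of the sequence are two further classes. -/
def R (A : Set κ) (n : ℕ) : Set (Pts κ × Pts κ) :=
  {p | p.1 = p.2 ∨ (∃ γ δ, p = (pt γ, pt δ) ∧ γ ∉ A ∧ δ ∉ A) ∨
    (∃ a b, p = (tm a, tm b) ∧ n ≤ a ∧ n ≤ b)}

theorem R_mono {A B : Set κ} {n m : ℕ} (h : A ⊆ B) (h' : n ≤ m) : R B m ⊆ R A n := by
  rintro p (hp | ⟨γ, δ, rfl, h1, h2⟩ | ⟨a, b, rfl, h1, h2⟩)
  · exact Or.inl hp
  · exact Or.inr (Or.inl ⟨γ, δ, rfl, fun hc => h1 (h hc), fun hc => h2 (h hc)⟩)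
  · exact Or.inr (Or.inr ⟨a, b, rfl, h'.trans h1, h'.trans h2⟩)

theorem R_refl (A : Set κ) (n : ℕ) (x : Pts κ) : (x, x) ∈ R A n := Or.inl rfl

theorem R_symm {A : Set κ} {n : ℕ} {x y : Pts κ} (h : (x, y) ∈ R A n) : (y, x) ∈ R A n := by
  rcases h with hp | ⟨γ, δ, h, h1, h2⟩ | ⟨a, b, h, h1, h2⟩
  · exact Or.inl hp.symm
  · simp only [Prod.mk.injEq] at h
    exact Or.inr (Or.inl ⟨δ, γ, by simp [h.1, h.2], h2, h1⟩)
  · simp only [Prod.mk.injEq] at h
    exact Or.inr (Or.inr ⟨b, a, by simp [h.1, h.2], h2, h1⟩)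

theorem R_trans {A : Set κ} {n : ℕ} {x y z : Pts κ} (h : (x, y) ∈ R A n) (h' : (y, z) ∈ R A n) :
    (x, z) ∈ R A n := by
  rcases h with hp | ⟨γ, δ, h, h1, h2⟩ | ⟨a, b, h, h1, h2⟩
  · have : x = y := hp
    rw [this]; exact h'
  · simp only [Prod.mk.injEq] at h
    obtain ⟨rfl, rfl⟩ := h
    rcases h' with hp | ⟨γ', δ', h, h1', h2'⟩ | ⟨a, b, h, h1', h2'⟩
    · have : pt δ = z := hp
      rw [← this]; exact Or.inr (Or.inl ⟨γ, δ, rfl, h1, h2⟩)
    · simp only [Prod.mk.injEq] at h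
      obtain ⟨-, rfl⟩ := h
      exact Or.inr (Or.inl ⟨γ, δ', rfl, h1, h2'⟩)
    · simp at h
  · simp only [Prod.mk.injEq] at h
    obtain ⟨rfl, rfl⟩ := h
    rcases h' with hp | ⟨γ', δ', h, h1', h2'⟩ | ⟨a', b', h, h1', h2'⟩
    · have : tm b = z := hp
      rw [← this]; exact Or.inr (Or.inr ⟨a, b, rfl, h1, h2⟩)
    · simp at h
    · simp only [Prod.mk.injEq] at h
      obtain ⟨-, rfl⟩ := h
      exact Or.inr (Or.inr ⟨a, b', rfl, h1, h2'⟩)

/-- The filter of entourages. -/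
def unif (κ : Type) : Filter (Pts κ × Pts κ) where
  sets := {E | ∃ A : Set κ, A.Countable ∧ ∃ n, R A n ⊆ E}
  univ_sets := ⟨∅, countable_empty, 0, subset_univ _⟩
  sets_of_superset := by
    rintro x y ⟨A, hA, n, h⟩ hxy
    exact ⟨A, hA, n, h.trans hxy⟩
  inter_sets := by
    rintro x y ⟨A, hA, n, h⟩ ⟨B, hB, m, h'⟩
    exact ⟨A ∪ B, hA.union hB, max n m, subset_inter
      ((R_mono subset_union_left (le_max_left _ _)).trans h)
      ((R_mono subset_union_right (le_max_right _ _)).trans h')⟩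

theorem mem_unif {E : Set (Pts κ × Pts κ)} :
    E ∈ unif κ ↔ ∃ A : Set κ, A.Countable ∧ ∃ n, R A n ⊆ E := Iff.rfl

theorem R_mem {A : Set κ} (hA : A.Countable) (n : ℕ) : R A n ∈ unif κ :=
  ⟨A, hA, n, subset_rfl⟩

/-- The uniform structure of the example. -/
instance : UniformSpace (Pts κ) := UniformSpace.ofCore
  { uniformity := unif κ
    refl := by
      rintro E ⟨A, -, n, h⟩ ⟨x, y⟩ hxy
      have : x = y := hxy
      subst this
      exact h (R_refl A n x)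
    symm := by
      rintro E ⟨A, hA, n, h⟩
      exact ⟨A, hA, n, fun p hp => h (R_symm hp)⟩
    comp := by
      rintro E ⟨A, hA, n, h⟩
      refine mem_of_superset (mem_lift' (R_mem hA n)) ?_
      rintro ⟨x, z⟩ ⟨y, h1, h2⟩
      exact h (R_trans h1 h2) }

theorem mem_uniformity {E : Set (Pts κ × Pts κ)} :
    E ∈ 𝓤 (Pts κ) ↔ ∃ A : Set κ, A.Countable ∧ ∃ n, R A n ⊆ E := Iff.rfl

/-- The uniform space is `ω`-narrow. -/
theorem narrow : ∀ U ∈ 𝓤 (Pts κ), ∃ A : Set (Pts κ), A.Countable ∧ ∀ x, ∃ a ∈ A, (a, x) ∈ U := by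
  rintro U ⟨A, hA, n, h⟩
  by_cases hc : ∃ γ, γ ∉ A
  · obtain ⟨γ, hγ⟩ := hc
    refine ⟨pt '' A ∪ {pt γ} ∪ range tm, ((hA.image _).union (countable_singleton _)).union
      (countable_range _), fun x => ?_⟩
    cases x with
    | pt δ =>
      by_cases hδ : δ ∈ A
      · exact ⟨pt δ, Or.inl (Or.inl ⟨δ, hδ, rfl⟩), h (R_refl _ _ _)⟩
      · exact ⟨pt γ, Or.inl (Or.inr rfl), h (Or.inr (Or.inl ⟨γ, δ, rfl, hγ, hδ⟩))⟩
    | tm m => exact ⟨tm m, Or.inr ⟨m, rfl⟩, h (R_refl _ _ _)⟩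
  · push Not at hc
    refine ⟨pt '' A ∪ range tm, (hA.image _).union (countable_range _), fun x => ?_⟩
    cases x with
    | pt δ => exact ⟨pt δ, Or.inl ⟨δ, hc δ, rfl⟩, h (R_refl _ _ _)⟩
    | tm m => exact ⟨tm m, Or.inr ⟨m, rfl⟩, h (R_refl _ _ _)⟩

/-- The intersection of all entourages is the diagonal. -/
theorem separated {x y : Pts κ} (h : ∀ U ∈ 𝓤 (Pts κ), (x, y) ∈ U) : x = y := by
  cases x with
  | pt γ =>
    rcases h _ (R_mem (countable_singleton γ) 0) with hp | ⟨γ', δ, h, h1, h2⟩ | ⟨a, b, h, h1, h2⟩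
    · exact hp
    · simp only [Prod.mk.injEq, pt.injEq] at h
      exact absurd h.1 (fun hc => h1 hc.symm)
    · simp at h
  | tm n =>
    rcases h _ (R_mem countable_empty (n+1)) with hp | ⟨γ', δ, h, h1, h2⟩ | ⟨a, b, h, h1, h2⟩
    · exact hp
    · simp at h
    · simp only [Prod.mk.injEq, tm.injEq] at h
      omega

/-- Conjugates of differences of the sequence by `γ`. -/
def cj (γ : κ) (a b : ℕ) : FreeGroup (Pts κ) :=
  FreeGroup.of (pt γ) * (FreeGroup.of (tm a) * (FreeGroup.of (tm b))⁻¹) * (FreeGroup.of (pt γ))⁻¹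

theorem cj_eventually {t : TopologicalSpace (FreeGroup (Pts κ))} (ht : t ∈ Tops (Pts κ))
    {W : Set (FreeGroup (Pts κ))} (hW : W ∈ @nhds _ t 1) (γ : κ) :
    ∃ n, ∀ a b, n ≤ a → n ≤ b → cj γ a b ∈ W := by
  obtain ⟨h1, h2, h3⟩ := ht
  have h4 : Tendsto (fun g : FreeGroup (Pts κ) => FreeGroup.of (pt γ) * g * (FreeGroup.of (pt γ))⁻¹)
      (@nhds _ t 1) (@nhds _ t 1) := by
    have h5 : @Continuous _ _ t t
        (fun g : FreeGroup (Pts κ) => FreeGroup.of (pt γ) * g * (FreeGroup.of (pt γ))⁻¹) := by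
      fun_prop
    have := h5.tendsto 1
    simpa using this
  obtain ⟨A, hA, n, h⟩ := mem_uniformity.mp ((h4.comp h3) hW)
  exact ⟨n, fun a b ha hb => h (Or.inr (Or.inr ⟨a, b, rfl, ha, hb⟩))⟩

/-- Upper triangular unipotent matrices. -/
def up (x : ℝ) : (Matrix (Fin 2) (Fin 2) ℝ)ˣ where
  val := !![1, x; 0, 1]
  inv := !![1, -x; 0, 1]
  val_inv := by ext i j; fin_cases i <;> fin_cases j <;> simp
  inv_val := by ext i j; fin_cases i <;> fin_cases j <;> simp

/-- Diagonal matrices. -/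
noncomputable def dg (x : ℝ) (hx : x ≠ 0) : (Matrix (Fin 2) (Fin 2) ℝ)ˣ where
  val := !![x, 0; 0, 1]
  inv := !![x⁻¹, 0; 0, 1]
  val_inv := by ext i j; fin_cases i <;> fin_cases j <;> simp [hx]
  inv_val := by ext i j; fin_cases i <;> fin_cases j <;> simp [hx]

theorem up_continuous : Continuous up := by
  rw [Units.continuous_iff]
  constructor
  · refine continuous_matrix fun i j => ?_
    fin_cases i <;> fin_cases j <;> simp [up] <;> fun_prop
  · refine continuous_matrix fun i j => ?_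
    fin_cases i <;> fin_cases j <;> simp [up] <;> fun_prop

theorem up_zero : up 0 = 1 := by
  ext i j; fin_cases i <;> fin_cases j <;> simp [up]

theorem up_inv (x : ℝ) : (up x)⁻¹ = up (-x) := by
  ext i j; fin_cases i <;> fin_cases j <;> simp [up, Units.inv_mk]

open Classical in
/-- The map into `GL₂(ℝ)`. -/
noncomputable def hm (γ : ℕ → κ) : Pts κ → (Matrix (Fin 2) (Fin 2) ℝ)ˣ
  | pt δ => if h : ∃ i, γ i = δ then dg ((h.choose : ℝ) + 1) (by positivity) else 1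
  | tm a => up (1 / ((a : ℝ) + 1))

theorem hm_pt {γ : ℕ → κ} (hγ : Function.Injective γ) (i : ℕ) :
    hm γ (pt (γ i)) = dg ((i : ℝ) + 1) (by positivity) := by
  have h : ∃ j, γ j = γ i := ⟨i, rfl⟩
  have h2 : h.choose = i := hγ h.choose_spec
  simp only [hm, dif_pos h]
  congr 1
  rw [h2]

theorem hm_pt_of_notMem {γ : ℕ → κ} {δ : κ} (h : δ ∉ range γ) : hm γ (pt δ) = 1 := by
  have h' : ¬ ∃ j, γ j = δ := h
  simp only [hm, dif_neg h']

/-- The topology induced by the homomorphism. -/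
noncomputable def ind (γ : ℕ → κ) : TopologicalSpace (FreeGroup (Pts κ)) :=
  TopologicalSpace.induced (FreeGroup.lift (hm γ)) inferInstance

theorem tendsto_aux (f : (Matrix (Fin 2) (Fin 2) ℝ)ˣ × (Matrix (Fin 2) (Fin 2) ℝ)ˣ →
    (Matrix (Fin 2) (Fin 2) ℝ)ˣ) (hf : Continuous f) (h1 : ∀ x, f (x, x) = 1) (γ : ℕ → κ) :
    Tendsto (fun p : Pts κ × Pts κ => f (hm γ p.1, hm γ p.2)) (𝓤 (Pts κ)) (𝓝 1) := by
  intro V hV
  have h2 : Tendsto (fun a : ℕ => up (1 / ((a : ℝ) + 1))) atTop (𝓝 1) := by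
    have h3 : Tendsto (fun a : ℕ => 1 / ((a : ℝ) + 1)) atTop (𝓝 0) :=
      tendsto_one_div_add_atTop_nhds_zero_nat
    have h4 := (up_continuous.tendsto 0).comp h3
    rwa [up_zero] at h4
  have h3 : Tendsto (fun p : ℕ × ℕ => f (up (1 / ((p.1 : ℝ) + 1)), up (1 / ((p.2 : ℝ) + 1))))
      (atTop ×ˢ atTop) (𝓝 1) := by
    have h4 := (hf.tendsto (1, 1)).comp (by
      rw [nhds_prod_eq]
      exact (h2.comp tendsto_fst).prodMk (h2.comp tendsto_snd))
    rw [h1] at h4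
    exact h4
  have h4 := h3 hV
  rw [Filter.mem_map, prod_atTop_atTop_eq, mem_atTop_sets] at h4
  obtain ⟨⟨n, m⟩, h5⟩ := h4
  have h1V : (1 : (Matrix (Fin 2) (Fin 2) ℝ)ˣ) ∈ V := mem_of_mem_nhds hV
  rw [Filter.mem_map, mem_uniformity]
  refine ⟨range γ, countable_range γ, max n m, ?_⟩
  rintro ⟨x, y⟩ (hp | ⟨γ', δ, h, h1', h2'⟩ | ⟨a, b, h, h1', h2'⟩)
  · have : x = y := hp
    subst this
    change f (hm γ x, hm γ x) ∈ V
    rw [h1]; exact h1V
  · simp only [Prod.mk.injEq] at h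
    obtain ⟨rfl, rfl⟩ := h
    change f (hm γ (pt γ'), hm γ (pt δ)) ∈ V
    rw [hm_pt_of_notMem h1', hm_pt_of_notMem h2', h1]
    exact h1V
  · simp only [Prod.mk.injEq] at h
    obtain ⟨rfl, rfl⟩ := h
    exact h5 (a, b) ⟨(le_max_left _ _).trans h1', (le_max_right _ _).trans h2'⟩

theorem ind_mem (γ : ℕ → κ) : ind γ ∈ Tops (Pts κ) := by
  refine ⟨topologicalGroup_induced (FreeGroup.lift (hm γ)), ?_, ?_⟩
  · unfold ind
    rw [nhds_induced, tendsto_comap_iff, map_one]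
    have := tendsto_aux (fun p => p.1⁻¹ * p.2) (by fun_prop) (by simp) γ
    refine this.congr (fun p => ?_)
    simp
  · unfold ind
    rw [nhds_induced, tendsto_comap_iff, map_one]
    have := tendsto_aux (fun p => p.1 * p.2⁻¹) (by fun_prop) (by simp) γ
    refine this.congr (fun p => ?_)
    simp

/-- A neighbourhood of the identity for which the conjugates by `γ i` are absorbed late. -/
theorem exists_W {t : TopologicalSpace (FreeGroup (Pts κ))} (ht : IsLeast (Tops (Pts κ)) t)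
    {γ : ℕ → κ} (hγ : Function.Injective γ) :
    ∃ W ∈ @nhds _ t 1, ∀ i, cj (γ i) i (2 * i + 1) ∉ W := by
  have hO : {M : (Matrix (Fin 2) (Fin 2) ℝ)ˣ | |M.val 0 1| < 1 / 2} ∈ 𝓝 1 := by
    have hc : Continuous (fun M : (Matrix (Fin 2) (Fin 2) ℝ)ˣ => |M.val 0 1|) := by
      have : Continuous (fun M : (Matrix (Fin 2) (Fin 2) ℝ)ˣ => M.val 0 1) :=
        Units.continuous_val.matrix_elem 0 1
      exact this.abs
    exact (isOpen_lt hc continuous_const).mem_nhds (by simp)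
  refine ⟨(FreeGroup.lift (hm γ)) ⁻¹' {M | |M.val 0 1| < 1 / 2}, ?_, ?_⟩
  · have h1 : t ≤ ind γ := ht.2 (ind_mem γ)
    have h2 : @nhds _ t 1 ≤ @nhds _ (ind γ) 1 := nhds_mono h1
    apply h2
    unfold ind
    rw [nhds_induced, map_one]
    exact preimage_mem_comap hO
  · intro i hi
    have h1 : FreeGroup.lift (hm γ) (cj (γ i) i (2 * i + 1)) =
        dg ((i : ℝ) + 1) (by positivity) * (up (1 / ((i : ℝ) + 1)) *
          (up (1 / (((2 * i + 1 : ℕ) : ℝ) + 1)))⁻¹) * (dg ((i : ℝ) + 1) (by positivity))⁻¹ := by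
      simp only [cj, map_mul, map_inv, FreeGroup.lift_apply_of, hm_pt hγ]
      rfl
    rw [mem_preimage, h1, up_inv] at hi
    have h2 : (dg ((i : ℝ) + 1) (by positivity) * (up (1 / ((i : ℝ) + 1)) *
          up (-(1 / (((2 * i + 1 : ℕ) : ℝ) + 1)))) * (dg ((i : ℝ) + 1) (by positivity))⁻¹).val 0 1
        = 1 / 2 := by
      have h3 : ((i : ℝ) + 1) ≠ 0 := by positivity
      simp [dg, up, Units.inv_mk, Matrix.mul_apply, Fin.sum_univ_two]
      field_simp
      ring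
    simp only [mem_ofPred_eq] at hi
    rw [h2] at hi
    norm_num at hi

theorem core {t : TopologicalSpace (FreeGroup (Pts κ))} (ht : IsLeast (Tops (Pts κ)) t)
    (hκ : #((ℕ → ℕ) × (ℕ → ℕ) → ℕ) < #κ) {Q : Type} [Preorder Q]
    (qq : (ℕ → ℕ) × (ℕ → ℕ) → {A : Set κ // A.Countable} → Q)
    (mono : ∀ f A B, A.1 ⊆ B.1 → qq f A ≤ qq f B)
    (cof : ∀ q, ∃ f A, q ≤ qq f A) :
    ¬ TukeyLE (RevSets (@nhds _ t 1).sets) Q := by
  rintro ⟨φ, hφ⟩
  -- the dual map
  have hψ : ∀ W : RevSets (@nhds _ t 1).sets, ∃ q, ∀ q', q ≤ q' → W ≤ φ q' := by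
    intro W
    by_contra hcon
    push Not at hcon
    have hC : IsCofinal {q | ¬ W ≤ φ q} := fun q => by
      obtain ⟨q', h1, h2⟩ := hcon q
      exact ⟨q', h2, h1⟩
    obtain ⟨_, ⟨q, hq, rfl⟩, hWq⟩ := hφ _ hC W
    exact hq hWq
  choose ψ hψ using hψ
  -- bound
  have hbd : ∀ (f : (ℕ → ℕ) × (ℕ → ℕ)) (γ : κ), ∃ c : ℕ, ∀ (A : {A : Set κ // A.Countable})
      (W : RevSets (@nhds _ t 1).sets), ψ W ≤ qq f A →
        ∀ a b, c ≤ a → c ≤ b → cj γ a b ∈ W.1 := by
    intro f γ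
    by_contra hcon
    push Not at hcon
    choose A W hW a b ha hb hnot using hcon
    let B : {A : Set κ // A.Countable} := ⟨⋃ n, (A n).1, countable_iUnion fun n => (A n).2⟩
    have h1 : ∀ n, W n ≤ φ (qq f B) := fun n =>
      hψ _ _ ((hW n).trans (mono f _ _ (subset_iUnion (fun n => (A n).1) n)))
    obtain ⟨n, hn⟩ := cj_eventually ht.1 (φ (qq f B)).2 γ
    exact hnot n (h1 n (hn _ _ (ha n) (hb n)))
  choose c hc using hbd
  have hinf : Infinite κ := by
    by_contra hfin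
    rw [not_infinite_iff_finite] at hfin
    have h1 : #κ < ℵ₀ := Cardinal.lt_aleph0_of_finite κ
    have h2 : ℵ₀ ≤ #((ℕ → ℕ) × (ℕ → ℕ) → ℕ) := Cardinal.aleph0_le_mk _
    exact absurd (h2.trans hκ.le) (not_le.mpr h1)
  obtain ⟨d, hd⟩ := Cardinal.exists_infinite_fiber (fun γ f => c f γ) hκ
  -- an injective sequence in the fibre
  let γ : ℕ → κ := fun n => (Infinite.natEmbedding _ n : (fun γ f => c f γ) ⁻¹' {d}).1
  have hγ : Function.Injective γ := fun m n h =>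
    (Infinite.natEmbedding _).injective (Subtype.ext h)
  have hγd : ∀ n f, c f (γ n) = d f := fun n f =>
    congrFun (Infinite.natEmbedding _ n : (fun γ f => c f γ) ⁻¹' {d}).2 f
  obtain ⟨W, hW, hnot⟩ := exists_W ht hγ
  obtain ⟨f, A, hfA⟩ := cof (ψ ⟨W, hW⟩)
  have h1 := hc f (γ (d f)) A ⟨W, hW⟩ hfA (d f) (2 * d f + 1) (by rw [hγd]) (by rw [hγd]; omega)
  exact hnot (d f) h1

end Pool.Agent.R822.Tukey
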